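import Mathlib
import Pool.Agent.Morera.Main

open Set Filter Topology

namespace Pool.Agent.Results.MP_be4214_an.SmallCircles

/-- A continuous function on an open set `D` whose integrals over the circles `|ζ - z| = r` are
`o(r ^ 2)` as `r → 0`, at every point `z` of `D`, is holomorphic in `D`. -/
theorem result (D : Set ℂ) (hD : IsOpen D) (f : ℂ → ℂ) (hf : ContinuousOn f D)
    (h : ∀ z ∈ D, Tendsto (fun r : ℝ => (∮ ζ in C(z, r), f ζ) / (r : ℂ) ^ 2) (𝓝[>] 0) (𝓝 0)) :
    DifferentiableOn ℂ f D :=
  Pool.Agent.Morera.main D hD f hf h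

end Pool.Agent.Results.MP_be4214_an.SmallCircles
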